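import Mathlib

set_option autoImplicit false

open scoped Pointwise

namespace Pool.Agent.Fusible

/-- Fusible numbers, as an inductive predicate. -/
inductive Fus : ℚ → Prop
  | zero : Fus 0
  | fuse {a b : ℚ} : Fus a → Fus b → |a - b| < 1 → Fus ((a + b + 1) / 2)

theorem Fus.nonneg {q : ℚ} (h : Fus q) : 0 ≤ q := by
  induction h with
  | zero => exact le_refl 0
  | fuse ha hb hab iha ihb => linarith

/-- A fusible number below `z` (a real number). -/
def below (z : ℝ) : Set ℚ := {q : ℚ | Fus q ∧ (q : ℝ) < z}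

theorem below_mono {z w : ℝ} (h : z ≤ w) : below z ⊆ below w := fun _ hq =>
  ⟨hq.1, lt_of_lt_of_le hq.2 h⟩

theorem below_step {z : ℝ} (h : (below z).IsWF) : ∃ e : ℝ, 0 < e ∧ (below (z + e)).IsWF := by
  -- a gap above `z - 1`
  obtain ⟨η, hη, hgap⟩ : ∃ η : ℝ, 0 < η ∧ ∀ q : ℚ, Fus q → z - 1 < (q : ℝ) →
      z - 1 + η ≤ (q : ℝ) := by
    by_cases hne : (below z ∩ {q : ℚ | z - 1 < (q : ℝ)}).Nonempty
    · have hwf : (below z ∩ {q : ℚ | z - 1 < (q : ℝ)}).IsWF := h.mono Set.inter_subset_left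
      have hm := hwf.min_mem hne
      set m := hwf.min hne with hmdef
      refine ⟨(m : ℝ) - (z - 1), by have := hm.2; change z - 1 < _ at this; linarith, ?_⟩
      intro q hq hq1
      by_contra hlt
      push Not at hlt
      have hqm : (q : ℝ) < (m : ℝ) := by linarith
      have hmz : (m : ℝ) < z := hm.1.2
      have hq2 : q ∈ below z ∩ {q : ℚ | z - 1 < (q : ℝ)} := ⟨⟨hq, by linarith⟩, hq1⟩
      have := hwf.min_le hne hq2
      have h3 : (m : ℝ) ≤ (q : ℝ) := by exact_mod_cast this
      linarith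
    · refine ⟨1, one_pos, ?_⟩
      intro q hq hq1
      by_contra hlt
      push Not at hlt
      exact hne ⟨q, ⟨hq, by linarith⟩, hq1⟩
  refine ⟨η / 2, by linarith, ?_⟩
  have hpwo : (below z).IsPWO := h.isPWO
  have hsum : ((fun x : ℚ => (x + 1) / 2) '' (below z + below z)).IsPWO := by
    apply (hpwo.add hpwo).image_of_monotone
    intro x y hxy
    show (x + 1) / 2 ≤ (y + 1) / 2
    linarith
  have hall : (below z ∪ {0} ∪ (fun x : ℚ => (x + 1) / 2) '' (below z + below z)).IsPWO :=
    (hpwo.union (Set.isPWO_singleton 0)).union hsum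
  refine (hall.mono ?_).isWF
  intro q hq
  obtain ⟨hq1, hq2⟩ := hq
  cases hq1 with
  | zero => exact Or.inl (Or.inr rfl)
  | @fuse a b ha hb hab =>
    right
    have hab' : |(a : ℝ) - (b : ℝ)| < 1 := by exact_mod_cast hab
    rw [abs_lt] at hab'
    have hq2' : ((a : ℝ) + b + 1) / 2 < z + η / 2 := by
      have := hq2
      push_cast at this
      exact this
    have haz : (a : ℝ) < z := by
      by_contra hc
      push Not at hc
      have h1 := hgap b hb (by linarith)
      linarith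
    have hbz : (b : ℝ) < z := by
      by_contra hc
      push Not at hc
      have h1 := hgap a ha (by linarith)
      linarith
    refine ⟨a + b, Set.add_mem_add ⟨ha, haz⟩ ⟨hb, hbz⟩, rfl⟩

theorem below_limit {z : ℝ} (h : ∀ w < z, (below w).IsWF) : (below z).IsWF := by
  rw [Set.isWF_iff_no_descending_seq]
  intro f hf hall
  have h0 : (f 0 : ℝ) < z := (hall 0).2
  have hwf := h (f 0 : ℝ) h0
  rw [Set.isWF_iff_no_descending_seq] at hwf
  refine hwf (fun n => f (n + 1)) ?_ ?_
  · intro a b hab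
    exact hf (by omega)
  · intro n
    refine ⟨(hall (n + 1)).1, ?_⟩
    have : f (n + 1) < f 0 := hf (by omega)
    exact_mod_cast this

theorem below_isWF (z : ℝ) : (below z).IsWF := by
  by_contra hz
  set A : Set ℝ := {w : ℝ | (below w).IsWF} with hA
  have hne : A.Nonempty := by
    refine ⟨0, ?_⟩
    have : below 0 = ∅ := by
      ext q
      simp only [Set.mem_empty_iff_false, iff_false]
      rintro ⟨h1, h2⟩
      have := h1.nonneg
      have h3 : (0 : ℝ) ≤ (q : ℝ) := by exact_mod_cast this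
      linarith
    show (below 0).IsWF
    rw [this]
    exact Set.isWF_empty
  have hbdd : BddAbove A := by
    refine ⟨z, ?_⟩
    intro w hw
    by_contra hc
    push Not at hc
    exact hz (Set.IsWF.mono hw (below_mono hc.le))
  have hs : (below (sSup A)).IsWF := by
    apply below_limit
    intro w hw
    obtain ⟨a, ha, hwa⟩ := exists_lt_of_lt_csSup hne hw
    exact Set.IsWF.mono ha (below_mono hwa.le)
  obtain ⟨e, he, hwf⟩ := below_step hs
  have := le_csSup hbdd (show sSup A + e ∈ A from hwf)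
  linarith

/-- The set of fusible numbers is well-founded. -/
theorem fus_isWF : {q : ℚ | Fus q}.IsWF := by
  rw [Set.isWF_iff_no_descending_seq]
  intro f hf hall
  have hwf := below_isWF ((f 0 : ℝ) + 1)
  rw [Set.isWF_iff_no_descending_seq] at hwf
  refine hwf f hf ?_
  intro n
  refine ⟨hall n, ?_⟩
  have : f n ≤ f 0 := hf.antitone (Nat.zero_le n)
  have h2 : (f n : ℝ) ≤ (f 0 : ℝ) := by exact_mod_cast this
  linarith

/-- Strong induction over fusible numbers. -/
theorem Fus.strong_induction {P : ℚ → Prop}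
    (h : ∀ q, Fus q → (∀ r, Fus r → r < q → P r) → P q) : ∀ q, Fus q → P q := by
  intro q hq
  have hwf := fus_isWF
  by_contra hP
  have hne : ({q : ℚ | Fus q} ∩ {q : ℚ | ¬ P q}).Nonempty := ⟨q, hq, hP⟩
  have hwf' : ({q : ℚ | Fus q} ∩ {q : ℚ | ¬ P q}).IsWF := hwf.mono Set.inter_subset_left
  have hm := hwf'.min_mem hne
  refine hm.2 (h _ hm.1 ?_)
  intro r hr hlt
  by_contra hPr
  exact hwf'.not_lt_min hne ⟨hr, hPr⟩ hlt

/-- Every nonempty set of fusible numbers has a least element. -/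
theorem Fus.exists_least {P : ℚ → Prop} (hne : ∃ q, Fus q ∧ P q) :
    ∃ q, Fus q ∧ P q ∧ ∀ r, Fus r → P r → q ≤ r := by
  obtain ⟨q, hq, hP⟩ := hne
  have hne : ({q : ℚ | Fus q} ∩ {q : ℚ | P q}).Nonempty := ⟨q, hq, hP⟩
  have hwf' : ({q : ℚ | Fus q} ∩ {q : ℚ | P q}).IsWF := fus_isWF.mono Set.inter_subset_left
  have hm := hwf'.min_mem hne
  exact ⟨_, hm.1, hm.2, fun r hr hPr => hwf'.min_le hne ⟨hr, hPr⟩⟩

theorem Fus.add_half {g : ℚ} (h : Fus g) : Fus (g + 1 / 2) := by
  have := Fus.fuse h h (by simp)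
  have e : (g + g + 1) / 2 = g + 1 / 2 := by ring
  rwa [e] at this

theorem Fus.add_one {g : ℚ} (h : Fus g) : Fus (g + 1) := by
  have := h.add_half.add_half
  have e : g + 1 / 2 + 1 / 2 = g + 1 := by ring
  rwa [e] at this

theorem fus_natCast (n : ℕ) : Fus (n : ℚ) := by
  induction n with
  | zero => simpa using Fus.zero
  | succ n ih => push_cast; exact ih.add_one

theorem fus_unbounded (q : ℚ) : ∃ r, Fus r ∧ q < r := by
  obtain ⟨n, hn⟩ := exists_nat_gt q
  exact ⟨n, fus_natCast n, hn⟩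

/-- Existence of the successor of any rational among the fusible numbers. -/
theorem exists_succ (q : ℚ) : ∃ r, Fus r ∧ q < r ∧ ∀ z, Fus z → q < z → r ≤ z :=
  Fus.exists_least (P := fun r => q < r) (fus_unbounded q)

/-- For `g` fusible, `g + 1 - 2^{-i}` is fusible. -/
theorem Fus.add_one_sub {g : ℚ} (h : Fus g) (i : ℕ) : Fus (g + 1 - (1 / 2) ^ i) := by
  induction i with
  | zero => simpa using h
  | succ i ih =>
    have hp : (0 : ℚ) < (1 / 2) ^ i := by positivity
    have hp1 : ((1 : ℚ) / 2) ^ i ≤ 1 := pow_le_one₀ (by norm_num) (by norm_num)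
    have := Fus.fuse h ih (by rw [abs_lt]; constructor <;> linarith)
    have e : (g + (g + 1 - (1 / 2) ^ i) + 1) / 2 = g + 1 - (1 / 2) ^ (i + 1) := by ring
    rwa [e] at this

/-- The fusible numbers below `1`. -/
theorem fus_lt_one_iff {q : ℚ} : (Fus q ∧ q < 1) ↔ ∃ k : ℕ, q = 1 - (1 / 2) ^ k := by
  constructor
  · rintro ⟨h, hlt⟩
    induction h with
    | zero => exact ⟨0, by norm_num⟩
    | @fuse a b ha hb hab iha ihb =>
      rw [abs_lt] at hab
      obtain ⟨i, hi⟩ := iha (by linarith)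
      obtain ⟨j, hj⟩ := ihb (by linarith)
      rcases Nat.eq_zero_or_pos i with h0 | h0
      · subst h0
        refine ⟨j + 1, ?_⟩
        rw [hi, hj]; ring
      rcases Nat.eq_zero_or_pos j with h1 | h1
      · subst h1
        refine ⟨i + 1, ?_⟩
        rw [hi, hj]; ring
      exfalso
      have e1 : ((1 : ℚ) / 2) ^ i ≤ (1 / 2) ^ 1 :=
        pow_le_pow_of_le_one (by norm_num) (by norm_num) h0
      have e2 : ((1 : ℚ) / 2) ^ j ≤ (1 / 2) ^ 1 :=
        pow_le_pow_of_le_one (by norm_num) (by norm_num) h1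
      rw [hi, hj] at hlt
      norm_num at e1 e2
      linarith
  · rintro ⟨k, rfl⟩
    have := Fus.zero.add_one_sub k
    simp only [zero_add] at this
    refine ⟨this, ?_⟩
    have hp : (0 : ℚ) < (1 / 2) ^ k := by positivity
    linarith

/-- Every fusible number is dyadic. -/
theorem Fus.dyadic {q : ℚ} (h : Fus q) : ∃ (n k : ℕ), q = n / 2 ^ k := by
  induction h with
  | zero => exact ⟨0, 0, by simp⟩
  | @fuse a b ha hb hab iha ihb =>
    obtain ⟨n, k, rfl⟩ := iha
    obtain ⟨m, l, rfl⟩ := ihb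
    refine ⟨n * 2 ^ l + m * 2 ^ k + 2 ^ k * 2 ^ l, k + l + 1, ?_⟩
    push_cast
    field_simp
    ring

end Pool.Agent.Fusible
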